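import Pool.Agent.W79.PL.Defs

/-!
Project PL, part PL-LAB2: labels from an ordering with few changes.
-/

set_option autoImplicit false

namespace Pool.Agent.W490.PL

open Pool.Agent.W79.PL

open scoped Classical

/-- the change positions of a row along a list -/
lemma rows {V : Type} (G : SimpleGraph V) (x : V) (l : List V) :
    ∀ a : V, ∃ ps : List ℕ, ps.length = cg G x (a :: l) ∧
      (∀ p ∈ ps, 1 ≤ p ∧ p < (a :: l).length) ∧
      ∀ (j : ℕ) (hj : j < (a :: l).length),
        (G.Adj x ((a :: l)[j]) ↔
          Xor (G.Adj x a) (Odd (ps.countP (fun p => decide (p ≤ j))))) := by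
  induction l with
  | nil =>
    intro a
    refine ⟨[], ?_, ?_, ?_⟩
    · simp [cg]
    · simp
    · intro j hj
      have hj0 : j = 0 := by simpa using hj
      subst hj0
      simp [xor_def]
  | cons b t ih =>
    intro a
    obtain ⟨ps, h1, h2, h3⟩ := ih b
    have key : ∀ j : ℕ, (ps.map (fun p => p + 1)).countP (fun p => decide (p ≤ j + 1)) =
        ps.countP (fun p => decide (p ≤ j)) := by
      intro j
      rw [List.countP_map]
      apply List.countP_congr
      intro p hp
      simp
    have key0 : (ps.map (fun p => p + 1)).countP (fun p => decide (p ≤ 0)) = 0 := by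
      rw [List.countP_eq_zero]
      intro p hp
      simp only [List.mem_map] at hp
      obtain ⟨q, hq, rfl⟩ := hp
      simp
    by_cases hab : G.Adj x a ↔ G.Adj x b
    · refine ⟨ps.map (fun p => p + 1), ?_, ?_, ?_⟩
      · simp [cg, hab, h1]
      · intro p hp
        simp only [List.mem_map] at hp
        obtain ⟨q, hq, rfl⟩ := hp
        have := h2 q hq
        simp only [List.length_cons] at this ⊢
        omega
      · intro j hj
        rcases j with _ | j
        · rw [key0]
          simp [xor_def]
        · have hj' : j < (b :: t).length := by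
            simp only [List.length_cons] at hj ⊢
            omega
          rw [key j, hab]
          have := h3 j hj'
          simpa using this
    · refine ⟨1 :: ps.map (fun p => p + 1), ?_, ?_, ?_⟩
      · simp [cg, hab, h1, add_comm]
      · intro p hp
        simp only [List.mem_cons, List.mem_map] at hp
        rcases hp with rfl | ⟨q, hq, rfl⟩
        · simp
        · have := h2 q hq
          simp only [List.length_cons] at this ⊢
          omega
      · intro j hj
        rcases j with _ | j
        · rw [List.countP_cons, key0]
          simp [xor_def]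
        · have hj' : j < (b :: t).length := by
            simp only [List.length_cons] at hj ⊢
            omega
          rw [List.countP_cons, key j]
          have h := h3 j hj'
          have e1 : (if decide (1 ≤ j + 1) = true then 1 else 0) = 1 := by simp
          rw [e1, Nat.odd_add_one]
          have e2 : (a :: b :: t)[j + 1] = (b :: t)[j] := rfl
          rw [e2, h]
          simp only [xor_def]
          tauto

/-- decoded adjacency -/
def Pd (b κ : ℕ) (tu tv : Fin (2 ^ b) × Bool × List.Vector (Fin (2 ^ b)) κ) : Prop :=
  Xor (tu.2.1 = true)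
    (Odd (tu.2.2.toList.countP (fun q => decide (1 ≤ q.val ∧ q.val ≤ tv.1.val))))

theorem main : S_LAB2 := by
  intro b κ L hL
  have hcard : Fintype.card (Fin (2 ^ b) × Bool × List.Vector (Fin (2 ^ b)) κ) ≤
      Fintype.card (Fin L → Bool) := by
    rw [Fintype.card_prod, Fintype.card_prod, card_vector, Fintype.card_fin, Fintype.card_bool,
      Fintype.card_fun, Fintype.card_fin, Fintype.card_bool]
    calc 2 ^ b * (2 * (2 ^ b) ^ κ) = 2 ^ (b + 1 + b * κ) := by
          rw [← pow_mul]; ring
      _ ≤ 2 ^ L := by
          apply Nat.pow_le_pow_right (by norm_num)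
          nlinarith
  obtain ⟨e⟩ := Function.Embedding.nonempty_of_card_le hcard
  let code : Fin (2 ^ b) × Bool × List.Vector (Fin (2 ^ b)) κ → List Bool :=
    fun t => List.ofFn (e t)
  have hcode : Function.Injective code := by
    intro s t hst
    exact e.injective (List.ofFn_injective hst)
  refine ⟨fun lu lv => decide (∃ tu tv, lu = code tu ∧ lv = code tv ∧ Pd b κ tu tv), ?_⟩
  intro n hn G o hnd hall hcg
  have hlen : o.length = n := by
    have h1 : o.toFinset = Finset.univ := by
      ext v; simp [hall v]
    have h2 := List.toFinset_card_of_nodup hnd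
    rw [h1, Finset.card_univ, Fintype.card_fin] at h2
    exact h2.symm
  -- the data of a vertex
  have hex : ∀ v : Fin n, ∃ t : Fin (2 ^ b) × Bool × List.Vector (Fin (2 ^ b)) κ,
      t.1.val = o.idxOf v ∧ ∀ (j : ℕ) (hj : j < o.length),
        (G.Adj v (o[j]) ↔ Xor (t.2.1 = true)
          (Odd (t.2.2.toList.countP (fun q => decide (1 ≤ q.val ∧ q.val ≤ j))))) := by
    intro v
    have hvi : o.idxOf v < o.length := List.idxOf_lt_length_iff.mpr (hall v)
    obtain ⟨a, l, rfl⟩ : ∃ a l, o = a :: l := by
      cases o with
      | nil => simp at hvi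
      | cons a l => exact ⟨a, l, rfl⟩
    obtain ⟨ps, h1, h2, h3⟩ := rows G v l a
    have hpk : ps.length ≤ κ := by rw [h1]; exact hcg v
    have hpos : 0 < 2 ^ b := by positivity
    let f : ℕ → Fin (2 ^ b) := fun m => ⟨m % 2 ^ b, Nat.mod_lt _ hpos⟩
    refine ⟨(⟨(a :: l).idxOf v, by omega⟩, decide (G.Adj v a),
      ⟨(ps ++ List.replicate (κ - ps.length) 0).map f, by simp; omega⟩), rfl, ?_⟩
    intro j hj
    rw [h3 j hj]
    have hc : (List.Vector.toList (⟨(ps ++ List.replicate (κ - ps.length) 0).map f, by
          simp; omega⟩ : List.Vector (Fin (2 ^ b)) κ)).countP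
          (fun q => decide (1 ≤ q.val ∧ q.val ≤ j)) = ps.countP (fun p => decide (p ≤ j)) := by
      show List.countP _ ((ps ++ List.replicate (κ - ps.length) 0).map f) = _
      rw [List.countP_map, List.countP_append, List.countP_replicate]
      have : (((fun q : Fin (2 ^ b) => decide (1 ≤ q.val ∧ q.val ≤ j)) ∘ f) 0) = false := by
        simp [f]
      rw [this]
      simp only [Bool.false_eq_true, if_false, add_zero]
      apply List.countP_congr
      intro p hp
      obtain ⟨hp1, hp2⟩ := h2 p hp
      have hlt : p < 2 ^ b := by omega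
      simp [f, Nat.mod_eq_of_lt hlt]
      omega
    simp only [decide_eq_true_eq]
    rw [hc]
  choose t ht1 ht2 using hex
  refine ⟨fun v => code (t v), ?_, ?_, ?_⟩
  · intro u v huv
    have h := hcode huv
    have h' : o.idxOf u = o.idxOf v := by rw [← ht1 u, ← ht1 v, h]
    exact (List.idxOf_inj (hall u)).mp h'
  · intro v
    simp [code]
  · intro u v _
    have hv : o.idxOf v < o.length := List.idxOf_lt_length_iff.mpr (hall v)
    have hov : o[o.idxOf v] = v := List.getElem_idxOf hv
    have h := ht2 u (o.idxOf v) hv
    rw [hov] at h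
    rw [decide_eq_true_eq]
    constructor
    · intro hadj
      refine ⟨t u, t v, rfl, rfl, ?_⟩
      unfold Pd
      rw [ht1 v]
      exact h.mp hadj
    · rintro ⟨tu, tv, h1, h2, h3⟩
      have e1 := hcode h1
      have e2 := hcode h2
      subst e1
      subst e2
      unfold Pd at h3
      rw [ht1 v] at h3
      exact h.mpr h3

end Pool.Agent.W490.PL
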