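import Pool.Agent.W79.PL.Defs

/-!
Project PL, part PL-PI: distinct traces are counted by the class.
-/

set_option autoImplicit false

namespace Pool.Agent.W490.PLPi

open Pool.Agent.W79.PL

open scoped Classical

theorem main : S_PI := by
  intro c P hH hS n G hG Y X hYX hsep m hm
  let y : Fin Y.card ≃ Y := Y.equivFin.symm
  let g : (Fin m ↪ X) → (Fin (Y.card + m) ↪ Fin n) := fun h =>
    ⟨Fin.append (fun i => (y i : Fin n)) (fun j => (h j : Fin n)), by
      rw [Fin.append_injective_iff]
      refine ⟨?_, ?_, ?_⟩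
      · intro i j hij
        exact y.injective (Subtype.ext hij)
      · intro i j hij
        exact h.injective (Subtype.ext hij)
      · intro i j hij
        have h1 : (y i : Fin n) ∈ Y := (y i).2
        have h2 : (h j : Fin n) ∈ X := (h j).2
        exact Finset.disjoint_left.mp hYX h1 (hij ▸ h2)⟩
  have hg : ∀ h, (G.comap (g h)) ∈ P (Y.card + m) := fun h => hH n (Y.card + m) (g h) G hG
  have hinj : Function.Injective (fun h : Fin m ↪ X => G.comap (g h)) := by
    intro h h' hh
    by_contra hne
    have : ∃ j, h j ≠ h' j := by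
      by_contra hall
      push Not at hall
      exact hne (DFunLike.ext _ _ hall)
    obtain ⟨j, hj⟩ := this
    obtain ⟨z, hz, hzs⟩ := hsep (h j) (h j).2 (h' j) (h' j).2 (fun e => hj (Subtype.ext e))
    apply hzs
    have e1 : (y (y.symm ⟨z, hz⟩) : Fin n) = z := by simp
    have hh' : (G.comap (g h)).Adj (Fin.castAdd m (y.symm ⟨z, hz⟩)) (Fin.natAdd Y.card j) ↔
        (G.comap (g h')).Adj (Fin.castAdd m (y.symm ⟨z, hz⟩)) (Fin.natAdd Y.card j) := by
      have := congrArg (fun H : SimpleGraph (Fin (Y.card + m)) =>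
        H.Adj (Fin.castAdd m (y.symm ⟨z, hz⟩)) (Fin.natAdd Y.card j)) hh
      exact iff_of_eq this
    simp only [SimpleGraph.comap_adj, g, Function.Embedding.coeFn_mk, Fin.append_left,
      Fin.append_right, e1] at hh'
    exact hh'
  have h1 : Fintype.card (Fin m ↪ X) = X.card.descFactorial m := by
    rw [Fintype.card_embedding_eq]; simp
  rw [← h1, ← Nat.card_eq_fintype_card]
  calc Nat.card (Fin m ↪ X) = (Set.range (fun h : Fin m ↪ X => G.comap (g h))).ncard := by
        rw [Set.ncard_range_of_injective hinj]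
    _ ≤ (P (Y.card + m)).ncard := by
        apply Set.ncard_le_ncard _ (Set.toFinite _)
        rintro _ ⟨h, rfl⟩
        exact hg h
    _ ≤ _ := hS _

end Pool.Agent.W490.PLPi
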